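import Pool.Agent.H9.Kirch

set_option autoImplicit false

open Metric

namespace Pool.Agent.Results.MP_f10258_co.Compact

/-- The sphere with centre `c` and radius `r` strictly separates `X` and `Y`. -/
def StrictSep {d : ℕ} (c : EuclideanSpace ℝ (Fin d)) (r : ℝ)
    (X Y : Set (EuclideanSpace ℝ (Fin d))) : Prop :=
  Disjoint X (sphere c r) ∧ Disjoint Y (sphere c r) ∧
    ((X ⊆ ball c r ∧ Y ⊆ (closedBall c r)ᶜ) ∨ (Y ⊆ ball c r ∧ X ⊆ (closedBall c r)ᶜ))

/-- The ordered pair `(X, Y)` is small-sphere separable. -/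
def SmallSep {d : ℕ} (X Y : Set (EuclideanSpace ℝ (Fin d))) : Prop :=
  ∃ c r, 0 < r ∧ r ≤ 1 ∧ StrictSep c r X Y ∧ X ⊆ ball c r

theorem result : ∀ d : ℕ, 1 ≤ d → ∀ A B : Set (EuclideanSpace ℝ (Fin d)),
    IsCompact A → IsCompact B →
    (SmallSep A B ↔ ∀ T : Finset (EuclideanSpace ℝ (Fin d)), (T : Set _) ⊆ A ∪ B →
      T.card ≤ d + 2 → SmallSep ((T : Set _) ∩ A) ((T : Set _) ∩ B)) := by
  intro d hd A B hA hB
  have : Nonempty (Fin d) := ⟨⟨0, hd⟩⟩
  have mk : ∀ (X Y : Set (EuclideanSpace ℝ (Fin d))) c r, 0 < r → r ≤ 1 → X ⊆ ball c r →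
      Y ⊆ (closedBall c r)ᶜ → SmallSep X Y := fun X Y c r h0 h1 h2 h3 =>
    ⟨c, r, h0, h1, ⟨sphere_disjoint_ball.symm.mono_left h2,
      (disjoint_compl_left.mono_right sphere_subset_closedBall).mono_left h3, Or.inl ⟨h2, h3⟩⟩, h2⟩
  constructor
  · rintro ⟨c, r, h0, h1, ⟨h2, h3, h4⟩, h5⟩ T - -
    refine ⟨c, r, h0, h1, ⟨h2.mono_left Set.inter_subset_right,
      h3.mono_left Set.inter_subset_right, ?_⟩, Set.inter_subset_right.trans h5⟩
    rcases h4 with h | h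
    · exact Or.inl ⟨Set.inter_subset_right.trans h.1, Set.inter_subset_right.trans h.2⟩
    · exact Or.inr ⟨Set.inter_subset_right.trans h.1, Set.inter_subset_right.trans h.2⟩
  · intro H
    rcases A.eq_empty_or_nonempty with rfl | ⟨a0, ha0⟩
    · obtain ⟨R, hR0, hR⟩ := hB.isBounded.exists_pos_norm_le
      obtain ⟨c, hc⟩ := exists_norm_eq (EuclideanSpace ℝ (Fin d)) (show 0 ≤ R + 2 by linarith)
      refine mk _ _ c 1 one_pos le_rfl (Set.empty_subset _) fun b hb => ?_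
      have h4 := hR b hb
      have h5 := norm_sub_norm_le c b
      rw [Set.mem_compl_iff, mem_closedBall, dist_comm, dist_eq_norm]
      linarith
    · obtain ⟨c, r, h0, h1, h2, h3⟩ := Pool.Agent.H9.Kirch.key A B hA hB a0 ha0 (by
        intro T hT hc ⟨a, ha⟩
        obtain ⟨c, r, h0, h1, ⟨-, -, h4⟩, h5⟩ := H T hT (by simpa using hc)
        rcases h4 with h | h
        · exact ⟨c, r, h0, h1, h⟩
        · exact absurd (ball_subset_closedBall (h5 ha)) (h.2 ha))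
      exact mk _ _ c r h0 h1 h2 h3

end Pool.Agent.Results.MP_f10258_co.Compact
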